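import Pool.Agent.R880.Ostr

/-! Let `F` be the skew field of rational quaternions and let `Γ` be the group of the
quaternions of norm one. The quotient hyperfield `F/Γ` is not a quotient of a commutative field:
a field with this quotient would embed into the complex numbers in such a way that all its
elements have a rational squared absolute value, and it would contain square roots of `-1`
and of `-2`, hence `√2`, but `|√2 + 1| ^ 2` is irrational. -/

namespace Pool.Agent.Results.MP_4a7e1d_al.RationalQuaternions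

universe u v

section defs

variable {F : Type u} [DivisionRing F] (Γ : Subgroup Fˣ)

/-- The class of `x` in the quotient `F/Γ = {0} ∪ Fˣ/Γ`. -/
noncomputable def cl (x : F) : WithZero (Fˣ ⧸ Γ) := by
  classical
  exact if h : x = 0 then 0 else ((Units.mk0 x h : Fˣ) : Fˣ ⧸ Γ)

/-- The hyperaddition of `F/Γ`: the classes of all sums `x + y` where `x` has class `a` and `y`
has class `b`. -/
def hadd (a b : WithZero (Fˣ ⧸ Γ)) : Set (WithZero (Fˣ ⧸ Γ)) :=
  {c | ∃ x y : F, cl Γ x = a ∧ cl Γ y = b ∧ cl Γ (x + y) = c}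

end defs

/-- An isomorphism from `F/Γ` to `K/Δ`: a bijection that maps `0` to `0`, the multiplication
to the multiplication and the hyperaddition to the hyperaddition. -/
structure HyperIso (F : Type u) [DivisionRing F] (Γ : Subgroup Fˣ) [Γ.Normal]
    (K : Type v) [DivisionRing K] (Δ : Subgroup Kˣ) [Δ.Normal] where
  /-- the bijection -/
  toEquiv : WithZero (Fˣ ⧸ Γ) ≃ WithZero (Kˣ ⧸ Δ)
  map_zero : toEquiv 0 = 0
  map_mul : ∀ a b, toEquiv (a * b) = toEquiv a * toEquiv b
  map_add : ∀ a b, toEquiv '' hadd Γ a b = hadd Δ (toEquiv a) (toEquiv b)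

section basic

variable {F : Type u} [DivisionRing F] (Γ : Subgroup Fˣ)

lemma cl_zero : cl Γ (0 : F) = 0 := by simp [cl]

lemma cl_of_ne {x : F} (h : x ≠ 0) : cl Γ x = ((Units.mk0 x h : Fˣ) : Fˣ ⧸ Γ) := by
  simp [cl, h]

lemma cl_eq_zero {x : F} : cl Γ x = 0 ↔ x = 0 := by
  constructor
  · intro h
    by_contra hx
    rw [cl_of_ne Γ hx] at h
    exact WithZero.coe_ne_zero h
  · rintro rfl; exact cl_zero Γ

lemma cl_mul [Γ.Normal] (x y : F) : cl Γ (x * y) = cl Γ x * cl Γ y := by
  by_cases hx : x = 0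
  · subst hx; simp [cl_zero]
  by_cases hy : y = 0
  · subst hy; simp [cl_zero]
  rw [cl_of_ne Γ hx, cl_of_ne Γ hy, cl_of_ne Γ (mul_ne_zero hx hy), ← WithZero.coe_mul,
    ← QuotientGroup.mk_mul, Units.mk0_mul]

lemma cl_surj : Function.Surjective (cl (F := F) Γ) := by
  intro a
  induction a using WithZero.recZeroCoe with
  | zero => exact ⟨0, cl_zero Γ⟩
  | coe a =>
    induction a using QuotientGroup.induction_on with
    | H u => exact ⟨u, by rw [cl_of_ne Γ u.ne_zero]; simp⟩

end basic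

open Quaternion

/-- the group of rational quaternions of norm one -/
noncomputable def normOne : Subgroup (ℍ[ℚ])ˣ :=
  (Units.map (Quaternion.normSq (R := ℚ)).toMonoidHom).ker

instance : normOne.Normal := MonoidHom.normal_ker _

lemma normSq_eq_of_cl {x y : ℍ[ℚ]} (h : cl normOne x = cl normOne y) :
    normSq x = normSq y := by
  by_cases hx : x = 0
  · subst hx
    rw [cl_zero] at h
    rw [(cl_eq_zero normOne).1 h.symm]
  have hy : y ≠ 0 := by
    rintro rfl
    rw [cl_zero] at h
    exact hx ((cl_eq_zero normOne).1 h)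
  rw [cl_of_ne _ hx, cl_of_ne _ hy, WithZero.coe_inj, QuotientGroup.eq] at h
  have h1 : normSq (x⁻¹ * y) = 1 := by
    have h2 := (MonoidHom.mem_ker).1 h
    have h3 := congrArg Units.val h2
    simpa using h3
  rw [map_mul, map_inv₀] at h1
  have h4 : normSq x ≠ 0 := by simpa using hx
  field_simp at h1
  exact h1.symm

lemma comm_quot (a b : (ℍ[ℚ])ˣ ⧸ normOne) : a * b = b * a := by
  induction a using QuotientGroup.induction_on with
  | H a =>
    induction b using QuotientGroup.induction_on with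
    | H b =>
      rw [← QuotientGroup.mk_mul, ← QuotientGroup.mk_mul, QuotientGroup.eq]
      refine (MonoidHom.mem_ker).2 ?_
      rw [map_mul, map_inv, map_mul, map_mul, mul_comm ((Units.map _) b), inv_mul_cancel]

/-- a rational quaternion as a real quaternion -/
def toReal (p : ℍ[ℚ]) : ℍ[ℝ] := ⟨p.re, p.imI, p.imJ, p.imK⟩

/-- the rational quaternion with the given coordinates -/
def quat (a b c d : ℚ) : ℍ[ℚ] := ⟨a, b, c, d⟩

lemma normSq_toReal (p : ℍ[ℚ]) : normSq (toReal p) = ((normSq p : ℚ) : ℝ) := by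
  rw [Quaternion.normSq_def', Quaternion.normSq_def']
  simp only [toReal]
  push_cast
  rfl

lemma normSq_quat (a b c d : ℚ) : normSq (quat a b c d) = a ^ 2 + b ^ 2 + c ^ 2 + d ^ 2 := by
  rw [Quaternion.normSq_def']; rfl

lemma toReal_add (p q : ℍ[ℚ]) : toReal (p + q) = toReal p + toReal q := by
  ext
  · show (((p + q).re : ℚ) : ℝ) = p.re + q.re
    simp
  · show (((p + q).imI : ℚ) : ℝ) = p.imI + q.imI
    simp
  · show (((p + q).imJ : ℚ) : ℝ) = p.imJ + q.imJ
    simp
  · show (((p + q).imK : ℚ) : ℝ) = p.imK + q.imK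
    simp

lemma sqrt_triangle (p q : ℍ[ℚ]) : Real.sqrt ((normSq (p + q) : ℚ) : ℝ) ≤
    Real.sqrt ((normSq p : ℚ) : ℝ) + Real.sqrt ((normSq q : ℚ) : ℝ) := by
  have key : ∀ p : ℍ[ℚ], Real.sqrt ((normSq p : ℚ) : ℝ) = ‖toReal p‖ := by
    intro p
    rw [← Real.sqrt_sq (norm_nonneg _), sq, ← Quaternion.normSq_eq_norm_mul_self, normSq_toReal]
  rw [key, key, key, toReal_add]
  exact norm_add_le _ _

lemma main {K : Type u} [Field K] (φ : K → ℚ) (h0 : ∀ x, φ x = 0 ↔ x = 0)
    (hmul : ∀ x y, φ (x * y) = φ x * φ y) (hnn : ∀ x, 0 ≤ φ x)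
    (htri : ∀ x y, Real.sqrt (φ (x + y)) ≤ Real.sqrt (φ x) + Real.sqrt (φ y))
    (hsurj : ∀ p q : ℍ[ℚ], ∃ x y : K, φ x = normSq p ∧ φ y = normSq q ∧
      φ (x + y) = normSq (p + q)) : False := by
  let v : AbsoluteValue K ℝ :=
    { toFun := fun x => Real.sqrt (φ x)
      map_mul' := fun x y => by
        rw [hmul]; push_cast
        rw [Real.sqrt_mul (by exact_mod_cast hnn x)]
      nonneg' := fun x => Real.sqrt_nonneg _
      eq_zero' := fun x => by
        rw [Real.sqrt_eq_zero (by exact_mod_cast hnn x)]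
        rw [← h0 x]; exact_mod_cast Iff.rfl
      add_le' := fun x y => htri x y }
  have hv : ∀ x, v x ^ 2 = φ x := fun x => Real.sq_sqrt (by exact_mod_cast hnn x)
  have hv' : ∀ x (r : ℝ), 0 ≤ r → (φ x : ℝ) = r ^ 2 → v x = r := by
    intro x r hr h
    show Real.sqrt (φ x) = r
    rw [h, Real.sqrt_sq hr]
  have h2 : v 2 = 2 := by
    obtain ⟨x, y, hx, hy, hxy⟩ := hsurj 1 1
    have e1 : normSq ((1 : ℍ[ℚ]) + 1) = 4 := by
      rw [Quaternion.normSq_def']; simp; norm_num
    rw [e1] at hxy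
    rw [map_one] at hx hy
    have a1 : v x = 1 := hv' x 1 zero_le_one (by rw [hx]; norm_num)
    have a2 : v y = 1 := hv' y 1 zero_le_one (by rw [hy]; norm_num)
    have a3 : v (x + y) = 2 := hv' _ 2 (by norm_num) (by rw [hxy]; norm_num)
    have a4 : v ((x + y) ^ 2) = 4 := by rw [map_pow, a3]; norm_num
    have a5 : (x + y) ^ 2 = x ^ 2 + (2 * (x * y) + y ^ 2) := by ring
    rw [a5] at a4
    have a6 := v.add_le (x ^ 2) (2 * (x * y) + y ^ 2)
    have a7 := v.add_le (2 * (x * y)) (y ^ 2)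
    rw [map_mul, map_mul, a1, a2] at a7
    rw [map_pow, a1] at a6
    rw [map_pow, a2] at a7
    have a8 : v 2 ≤ 2 := by
      have := v.add_le 1 1
      rw [map_one, one_add_one_eq_two] at this
      linarith
    linarith
  have hle : ∀ n : ℕ, v (n : K) ≤ n := by
    intro n
    induction n with
    | zero => simp
    | succ n ih =>
      push_cast
      have := v.add_le (n : K) 1
      rw [map_one] at this
      linarith
  have hnat : ∀ n : ℕ, v (n : K) = n := by
    intro n
    refine le_antisymm (hle n) ?_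
    have h3 : n ≤ 2 ^ n := Nat.lt_two_pow_self.le
    have h4 : v ((2 : K) ^ n) = 2 ^ n := by rw [map_pow, h2]
    have h5 : ((2 : K) ^ n) = (n : K) + ((2 ^ n - n : ℕ) : K) := by
      rw [Nat.cast_sub h3]; push_cast; ring
    rw [h5] at h4
    have h6 := v.add_le (n : K) ((2 ^ n - n : ℕ) : K)
    have h7 := hle (2 ^ n - n)
    have h8 : ((2 ^ n - n : ℕ) : ℝ) = 2 ^ n - n := by
      rw [Nat.cast_sub h3]; push_cast; rfl
    rw [h8] at h7
    linarith
  obtain ⟨ψ, hψ⟩ : ∃ ψ : K →+* ℂ, ∀ x, ‖ψ x‖ = v x := by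
    let _ : NormedField K := v.toNormedField
    exact Pool.Agent.R880.Ostr.embed K hnat
  have hψ2 : ∀ x, Complex.normSq (ψ x) = φ x := by
    intro x
    rw [← Complex.sq_norm, hψ, hv]
  -- elements with prescribed norm and trace
  have hpt : ∀ q : ℍ[ℚ], ∃ x : K, Complex.normSq (ψ x) = normSq q ∧ (ψ x).re = q.re := by
    intro q
    obtain ⟨x, y, hx, hy, hxy⟩ := hsurj q 1
    rw [map_one] at hy
    have hy0 : y ≠ 0 := by
      intro h
      rw [(h0 y).2 h] at hy
      exact zero_ne_one hy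
    have e1 : φ (x / y) = normSq q := by
      have := hmul (x / y) y
      rw [div_mul_cancel₀ x hy0, hy, mul_one, hx] at this
      exact this.symm
    have e2 : φ (x / y + 1) = normSq (q + 1) := by
      have := hmul (x / y + 1) y
      rw [add_mul, div_mul_cancel₀ x hy0, one_mul, hy, mul_one, hxy] at this
      exact this.symm
    refine ⟨x / y, by rw [hψ2, e1], ?_⟩
    have e3 := hψ2 (x / y + 1)
    have e4 := hψ2 (x / y)
    rw [e2, map_add, map_one, Complex.normSq_add] at e3
    rw [e1] at e4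
    rw [e4] at e3
    have e5 : normSq (q + 1) = normSq q + 2 * q.re + 1 := by
      rw [Quaternion.normSq_def', Quaternion.normSq_def']
      simp
      ring
    rw [e5] at e3
    push_cast at e3
    rw [Complex.normSq_one, map_one, mul_one] at e3
    linarith
  obtain ⟨x, hx1, hx2⟩ := hpt (quat 0 1 0 0)
  obtain ⟨y, hy1, hy2⟩ := hpt (quat 0 1 1 0)
  rw [normSq_quat] at hx1 hy1
  have hx3 : (ψ x).re = 0 := by rw [hx2]; simp [quat]
  have hy3 : (ψ y).re = 0 := by rw [hy2]; simp [quat]
  clear hx2 hy2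
  rename' hx3 => hx2, hy3 => hy2
  -- the product is a real square root of two
  rw [Complex.normSq_apply, hx2] at hx1
  rw [Complex.normSq_apply, hy2] at hy1
  have hw := hψ2 (x * y + 1)
  rw [map_add, map_mul, map_one, Complex.normSq_apply] at hw
  simp [hx2, hy2] at hw
  set a := (ψ x).im
  set b := (ψ y).im
  have hab : (a * b) ^ 2 = 2 := by
    have : (a * b) ^ 2 = (a * a) * (b * b) := by ring
    rw [this]
    have hx4 : a * a = 1 := by push_cast at hx1; linarith
    have hy4 : b * b = 2 := by push_cast at hy1; linarith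
    rw [hx4, hy4]; norm_num
  have hirr := irrational_sqrt_two
  have hlin : a * b = (3 - φ (x * y + 1)) / 2 := by nlinarith [hw, hab]
  have h9 : Real.sqrt 2 = |a * b| := by
    rw [← hab, Real.sqrt_sq_eq_abs]
  refine hirr ⟨|(3 - φ (x * y + 1)) / 2|, ?_⟩
  rw [h9, hlin]
  push_cast
  rfl

/-- There are a skew field `F` and a normal subgroup `Γ` of its multiplicative group with
`Fˣ/Γ` abelian such that the hyperfield `F/Γ` is not isomorphic to `K/Δ` for any commutative
field `K` and any subgroup `Δ` of its multiplicative group. -/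
theorem result : ∃ (F : Type) (_ : DivisionRing F) (Γ : Subgroup Fˣ) (_ : Γ.Normal),
    (∀ a b : Fˣ ⧸ Γ, a * b = b * a) ∧
    ∀ (K : Type u) [Field K] (Δ : Subgroup Kˣ), IsEmpty (HyperIso F Γ K Δ) := by
  refine ⟨ℍ[ℚ], inferInstance, normOne, inferInstance, comm_quot, ?_⟩
  intro K _ Δ
  refine ⟨fun f => ?_⟩
  choose g hg using fun x : K => cl_surj normOne (f.toEquiv.symm (cl Δ x))
  have hadd1 : ∀ x y : K, ∃ p q : ℍ[ℚ], cl normOne p = cl normOne (g x) ∧
      cl normOne q = cl normOne (g y) ∧ cl normOne (p + q) = cl normOne (g (x + y)) := by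
    intro x y
    have h1 : cl Δ (x + y) ∈ hadd Δ (cl Δ x) (cl Δ y) := ⟨x, y, rfl, rfl, rfl⟩
    have h2 : cl Δ x = f.toEquiv (cl normOne (g x)) := by rw [hg]; simp
    have h3 : cl Δ y = f.toEquiv (cl normOne (g y)) := by rw [hg]; simp
    rw [h2, h3, ← f.map_add] at h1
    obtain ⟨c, ⟨p, q, hp, hq, hpq⟩, hc⟩ := h1
    refine ⟨p, q, hp, hq, ?_⟩
    rw [hpq, hg (x + y), ← hc]; simp
  refine main (K := K) (fun x => normSq (g x)) ?_ ?_ ?_ ?_ ?_
  · intro x
    rw [Quaternion.normSq_eq_zero, ← cl_eq_zero normOne, hg]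
    rw [Equiv.symm_apply_eq, f.map_zero, cl_eq_zero]
  · intro x y
    rw [← map_mul]
    apply normSq_eq_of_cl
    apply f.toEquiv.injective
    rw [cl_mul, f.map_mul, hg, hg, hg]
    simp [cl_mul]
  · intro x; exact Quaternion.normSq_nonneg
  · intro x y
    obtain ⟨p, q, hp, hq, hpq⟩ := hadd1 x y
    rw [← normSq_eq_of_cl hp, ← normSq_eq_of_cl hq, ← normSq_eq_of_cl hpq]
    exact sqrt_triangle p q
  · intro p q
    have h1 : f.toEquiv (cl normOne (p + q)) ∈
        hadd Δ (f.toEquiv (cl normOne p)) (f.toEquiv (cl normOne q)) := by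
      rw [← f.map_add]
      exact ⟨_, ⟨p, q, rfl, rfl, rfl⟩, rfl⟩
    obtain ⟨x, y, hx, hy, hxy⟩ := h1
    refine ⟨x, y, ?_, ?_, ?_⟩ <;> apply normSq_eq_of_cl <;> rw [hg]
    · rw [hx]; simp
    · rw [hy]; simp
    · rw [hxy]; simp

end Pool.Agent.Results.MP_4a7e1d_al.RationalQuaternions
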